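import Mathlib

/-!
# MP_aa3754_al: the identity (⋆) fails for a generalized sharped cubic form
-/

set_option autoImplicit false

namespace Pool.Agent.Results.MP_aa3754_al.StarFails

open Matrix

/-- `N` is a cubic form: there is a map `N(x, y)`, quadratic in `x` and linear in `y`, with
`N(x + t y) = N(x) + t N(x, y) + t² N(y, x) + t³ N(y)`. -/
def IsCubicForm {F V : Type*} [Field F] [AddCommGroup V] [Module F V] (N : V → F) : Prop :=
  ∃ N2 : V → V → F, (∀ x y (t : F), N (x + t • y) = N x + t * N2 x y + t ^ 2 * N2 y x + t ^ 3 * N y) ∧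
    (∀ x, IsLinearMap F (N2 x)) ∧ (∀ y, ∃ Q : QuadraticForm F V, ∀ x, N2 x y = Q x)

/-- the complete linearization `N(v, u, w)` -/
def lin3 {F V : Type*} [Field F] [AddCommGroup V] (N : V → F) (v u w : V) : F :=
  N (v + u + w) - N (v + u) - N (v + w) - N (u + w) + N u + N v + N w

/-- `T(r) = N(r, c, c) / 2` -/
def T {F V : Type*} [Field F] [AddCommGroup V] (N : V → F) (c r : V) : F := lin3 N r c c / 2

/-- `S(r, q) = N(r, q, c)` -/
def S {F V : Type*} [Field F] [AddCommGroup V] (N : V → F) (c r q : V) : F := lin3 N r q c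

/-- `N(r, q) = N(r, r, q) / 2` -/
def lin2 {F V : Type*} [Field F] [AddCommGroup V] (N : V → F) (r q : V) : F := lin3 N r r q / 2

/-- the form `(r, q) = T(r) T(q) - S(r, q) - Δ(r, q)` -/
def form {F V : Type*} [Field F] [AddCommGroup V] [Module F V] (N : V → F)
    (Δ : LinearMap.BilinForm F V) (c r q : V) : F :=
  T N c r * T N c q - S N c r q - Δ r q

/-- the sharp product `r # q = (r + q)^# - r^# - q^#` -/
def sp {F V : Type*} [Field F] [AddCommGroup V] [Module F V] (sh : QuadraticMap F V V)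
    (r q : V) : V := sh (r + q) - sh r - sh q

/-- generalized sharped cubic forms `(N, Δ, #, c)` -/
structure GenSharped {F V : Type*} [Field F] [AddCommGroup V] [Module F V] (N : V → F)
    (Δ : LinearMap.BilinForm F V) (sh : QuadraticMap F V V) (c : V) : Prop where
  cubic : IsCubicForm N
  norm_c : N c = 1
  symm : ∀ r q, Δ r q = Δ q r
  Δ_c : ∀ r, Δ r c = 0
  ax1 : ∀ r q, form N Δ c (sp sh r q) r + form N Δ c (sh r) q = 3 * lin2 N r q
  ax2 : ∀ r, sh (sh r) = (N r + Δ (sh r) r) • r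
  ax3 : ∀ r, sp sh c r = T N c r • c - r

/-- the identity (⋆) -/
def Star {F V : Type*} [Field F] [AddCommGroup V] [Module F V] (N : V → F)
    (Δ : LinearMap.BilinForm F V) (sh : QuadraticMap F V V) (c : V) : Prop :=
  ∀ r q s, Δ (sp sh r q) s - Δ r (sp sh q s) =
    1 / 3 * (T N c s * Δ r q - T N c r * Δ q s)

section example1

variable (F : Type*) [Field F]

/-- the cubic form on `F³` -/
def N (x : Fin 3 → F) : F := x 0 * x 1 * x 2 + x 2 * (x 0 - x 1) ^ 2

/-- its partial linearization -/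
def N2 (x y : Fin 3 → F) : F :=
  y 0 * x 1 * x 2 + x 0 * y 1 * x 2 + x 0 * x 1 * y 2 + y 2 * (x 0 - x 1) ^ 2 +
    2 * x 2 * (x 0 - x 1) * (y 0 - y 1)

/-- a bilinear form giving the quadratic form `x ↦ N2 x y` -/
def bil (y : Fin 3 → F) : LinearMap.BilinForm F (Fin 3 → F) :=
  LinearMap.mk₂ F (fun x x' => y 0 * x 1 * x' 2 + y 1 * x 0 * x' 2 + y 2 * x 0 * x' 1 +
    y 2 * (x 0 - x 1) * (x' 0 - x' 1) + 2 * (y 0 - y 1) * x 2 * (x' 0 - x' 1))
    (by intros; simp only [Pi.add_apply]; ring)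
    (by intros; simp only [Pi.smul_apply, smul_eq_mul]; ring)
    (by intros; simp only [Pi.add_apply]; ring)
    (by intros; simp only [Pi.smul_apply, smul_eq_mul]; ring)

/-- `Δ(r, q) = (r₀ - r₁)(q₀ - q₁)` -/
def D : LinearMap.BilinForm F (Fin 3 → F) :=
  LinearMap.mk₂ F (fun x y => (x 0 - x 1) * (y 0 - y 1))
    (by intros; simp only [Pi.add_apply]; ring)
    (by intros; simp only [Pi.smul_apply, smul_eq_mul]; ring)
    (by intros; simp only [Pi.add_apply]; ring)
    (by intros; simp only [Pi.smul_apply, smul_eq_mul]; ring)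

theorem D_apply (x y : Fin 3 → F) : D F x y = (x 0 - x 1) * (y 0 - y 1) := rfl

/-- a bilinear map giving the sharp map -/
def shB : LinearMap.BilinMap F (Fin 3 → F) (Fin 3 → F) :=
  LinearMap.mk₂ F (fun x y => ![x 1 * y 2, x 2 * y 0, x 0 * y 1])
    (by
      intro a b y
      funext i
      fin_cases i <;> simp <;> ring)
    (by
      intro t a y
      funext i
      fin_cases i <;> simp <;> ring)
    (by
      intro x a b
      funext i
      fin_cases i <;> simp <;> ring)
    (by
      intro t x a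
      funext i
      fin_cases i <;> simp <;> ring)

/-- the sharp map `r^# = (r₁ r₂, r₂ r₀, r₀ r₁)` -/
def sh : QuadraticMap F (Fin 3 → F) (Fin 3 → F) := (shB F).toQuadraticMap

theorem sh_apply (x : Fin 3 → F) : sh F x = ![x 1 * x 2, x 2 * x 0, x 0 * x 1] := rfl

/-- the element `c = (1, 1, 1)` -/
def c : Fin 3 → F := ![1, 1, 1]

theorem T_eq (h2 : (2 : F) ≠ 0) (r : Fin 3 → F) : T (N F) (c F) r = r 0 + r 1 + r 2 := by
  simp only [T, lin3, N, c, Pi.add_apply]
  simp
  field_simp
  ring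

theorem S_eq (r q : Fin 3 → F) : S (N F) (c F) r q =
    r 0 * q 1 + r 1 * q 0 + r 0 * q 2 + r 2 * q 0 + r 1 * q 2 + r 2 * q 1 +
      2 * (r 0 - r 1) * (q 0 - q 1) := by
  simp only [S, lin3, N, c, Pi.add_apply]
  simp
  ring

theorem lin2_eq (h2 : (2 : F) ≠ 0) (r q : Fin 3 → F) : lin2 (N F) r q = N2 F r q := by
  simp only [lin2, lin3, N, N2, Pi.add_apply]
  field_simp
  ring

theorem sp_eq (r q : Fin 3 → F) : sp (sh F) r q =
    ![r 1 * q 2 + r 2 * q 1, r 2 * q 0 + r 0 * q 2, r 0 * q 1 + r 1 * q 0] := by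
  simp only [sp, sh_apply]
  funext i
  fin_cases i <;> simp <;> ring

theorem genSharped (h2 : (2 : F) ≠ 0) : GenSharped (N F) (D F) (sh F) (c F) where
  cubic := by
    refine ⟨N2 F, fun x y t => ?_, fun x => ⟨fun a b => ?_, fun t a => ?_⟩, fun y =>
      ⟨(bil F y).toQuadraticMap, fun x => ?_⟩⟩
    · simp only [N, N2, Pi.add_apply, Pi.smul_apply, smul_eq_mul]
      ring
    · simp only [N2, Pi.add_apply]
      ring
    · simp only [N2, Pi.smul_apply, smul_eq_mul]
      ring
    · simp only [N2, bil, LinearMap.BilinMap.toQuadraticMap_apply, LinearMap.mk₂_apply]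
      ring
  norm_c := by simp [N, c]
  symm r q := by simp only [D_apply]; ring
  Δ_c r := by simp [D_apply, c]
  ax1 r q := by
    simp only [form, T_eq F h2, S_eq, lin2_eq F h2, D_apply, sp_eq, sh_apply, N2]
    simp
    ring
  ax2 r := by
    rw [sh_apply, sh_apply, D_apply]
    funext i
    fin_cases i <;> simp [N] <;> ring
  ax3 r := by
    rw [sp_eq, T_eq F h2]
    funext i
    fin_cases i <;> simp [c] <;> ring

end example1

/-- For every field `F` in which `2` and `3` are invertible there is a generalized sharped cubic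
form over `F` (on `F³`) for which the identity (⋆) fails. -/
theorem result (F : Type*) [Field F] (h2 : (2 : F) ≠ 0) (_h3 : (3 : F) ≠ 0) :
    ∃ (N : (Fin 3 → F) → F) (Δ : LinearMap.BilinForm F (Fin 3 → F))
      (sh : QuadraticMap F (Fin 3 → F) (Fin 3 → F)) (c : Fin 3 → F),
      GenSharped N Δ sh c ∧ ¬ Star N Δ sh c := by
  refine ⟨N F, D F, sh F, c F, genSharped F h2, fun h => ?_⟩
  have h1 := h ![1, -1, 0] ![1, -1, 0] ![1, 1, -2]
  rw [sp_eq, sp_eq, T_eq F h2, T_eq F h2, D_apply, D_apply, D_apply, D_apply] at h1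
  simp at h1
  have h8 : (2 : F) ^ 3 = 0 := by
    linear_combination -h1
  exact h2 (pow_eq_zero_iff (by norm_num) |>.1 h8)

end Pool.Agent.Results.MP_aa3754_al.StarFails
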